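import Pool.Agent.H87.TL.NEGM
import Pool.Agent.H25.TL.TLIN
import Pool.Agent.H25.TL.TMUL
import Pool.Agent.H25.TL.TINV
import Pool.Agent.H60.TL.TSER
import Pool.Agent.H60.TL.TCH

/-! Crew TL: NEG without hypotheses (helper87). -/

set_option autoImplicit false

namespace Pool.Agent.H87.TL

open Pool.MP324 Pool.MP324.H25

theorem neg_all : S_NEG :=
  t_NEG TLIN_proved TMUL_proved (t_DRVY TCH_proved TSER_proved)
    (t_PARnegY TLIN_proved TMUL_proved TINV_proved) (t_ANEG TSER_proved)

end Pool.Agent.H87.TL
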