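import Pool.Agent.H77.TL.Stm2
import Pool.Agent.H86.TL.TPAR

/-! Crew TL, part PAR2 (helper87). -/

set_option autoImplicit false

namespace Pool.Agent.H87.TL

open Pool.MP324

theorem t_PARnegY (hL : S_LIN) (hM : S_MUL) (hI : S_Rinv) : S_PARnegY := by
  intro R1 R2 a b hd X1 X2 X3 X4 X5 X6 X7 x1 x2 x3 x4 x5 x6 x7 y1 y2 y3 y4 y5 y6 y7 h1 h2 h3 h4 h5 h6 h7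
  exact (negY (opsT hL hM hI hd) ⟨(X1, x1, y1), h1⟩ ⟨(X2, x2, y2), h2⟩ ⟨(X3, x3, y3), h3⟩
    ⟨(X4, x4, y4), h4⟩ ⟨(X5, x5, y5), h5⟩ ⟨(X6, x6, y6), h6⟩ ⟨(X7, x7, y7), h7⟩).2

theorem t_PARt5D (hL : S_LIN) (hM : S_MUL) (hI : S_Rinv) : S_PARt5D := by
  intro R1 R2 a b hd X1 X2 X3 X4 X5 X6 X7 x1 x2 x3 x4 x5 x6 x7 y1 y2 y3 y4 y5 y6 y7 h1 h2 h3 h4 h5 h6 h7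
  exact (t5D (opsT hL hM hI hd) ⟨(X1, x1, y1), h1⟩ ⟨(X2, x2, y2), h2⟩ ⟨(X3, x3, y3), h3⟩
    ⟨(X4, x4, y4), h4⟩ ⟨(X5, x5, y5), h5⟩ ⟨(X6, x6, y6), h6⟩ ⟨(X7, x7, y7), h7⟩).2

theorem t_PARc2D (hL : S_LIN) (hM : S_MUL) (hI : S_Rinv) : S_PARc2D := by
  intro R1 R2 a b hd X1 X2 X3 X4 X5 X6 X7 x1 x2 x3 x4 x5 x6 x7 y1 y2 y3 y4 y5 y6 y7 h1 h2 h3 h4 h5 h6 h7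
  exact (c2D (opsT hL hM hI hd) ⟨(X1, x1, y1), h1⟩ ⟨(X2, x2, y2), h2⟩ ⟨(X3, x3, y3), h3⟩
    ⟨(X4, x4, y4), h4⟩ ⟨(X5, x5, y5), h5⟩ ⟨(X6, x6, y6), h6⟩ ⟨(X7, x7, y7), h7⟩).2

theorem t_PARt5E (hL : S_LIN) (hM : S_MUL) (hI : S_Rinv) : S_PARt5E := by
  intro R1 R2 a b hd X0 X1 X2 X3 X4 X5 X6 X7 X8 X9 x0 x1 x2 x3 x4 x5 x6 x7 x8 x9 y0 y1 y2 y3 y4 y5
    y6 y7 y8 y9 h0 h1 h2 h3 h4 h5 h6 h7 h8 h9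
  exact (t5E (opsT hL hM hI hd) ⟨(X0, x0, y0), h0⟩ ⟨(X1, x1, y1), h1⟩ ⟨(X2, x2, y2), h2⟩
    ⟨(X3, x3, y3), h3⟩ ⟨(X4, x4, y4), h4⟩ ⟨(X5, x5, y5), h5⟩ ⟨(X6, x6, y6), h6⟩
    ⟨(X7, x7, y7), h7⟩ ⟨(X8, x8, y8), h8⟩ ⟨(X9, x9, y9), h9⟩).2

theorem t_PARc2E (hL : S_LIN) (hM : S_MUL) (hI : S_Rinv) : S_PARc2E := by
  intro R1 R2 a b hd X0 X1 X2 X3 X4 X5 X6 X7 X8 x0 x1 x2 x3 x4 x5 x6 x7 x8 y0 y1 y2 y3 y4 y5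
    y6 y7 y8 h0 h1 h2 h3 h4 h5 h6 h7 h8
  exact (c2E (opsT hL hM hI hd) ⟨(X0, x0, y0), h0⟩ ⟨(X1, x1, y1), h1⟩ ⟨(X2, x2, y2), h2⟩
    ⟨(X3, x3, y3), h3⟩ ⟨(X4, x4, y4), h4⟩ ⟨(X5, x5, y5), h5⟩ ⟨(X6, x6, y6), h6⟩
    ⟨(X7, x7, y7), h7⟩ ⟨(X8, x8, y8), h8⟩).2

theorem t_PAR2 (hL : S_LIN) (hM : S_MUL) (hI : S_Rinv) : S_PAR2 :=
  ⟨t_PARnegY hL hM hI, t_PARt5D hL hM hI, t_PARc2D hL hM hI, t_PARt5E hL hM hI, t_PARc2E hL hM hI⟩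

end Pool.Agent.H87.TL
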