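import Pool.Agent.H87.TL.PAR2
import Pool.Agent.H87.TL.ANEG
import Pool.Agent.H33.TL.TDrv
import Pool.Agent.H77.TL.Num.NEG00

/-! Crew TL, part NEGM (helper87). -/

set_option autoImplicit false

namespace Pool.Agent.H87.TL

open Pool.MP324

theorem rel_Al2 (hL : S_LIN) (a b : ℝ) : Rel a b Al2 (Real.log 2) (Real.log 2) := by
  apply hL.1
  have h1 := Real.log_two_gt_d9
  have h2 := Real.log_two_lt_d9
  rw [abs_le]
  constructor <;> push_cast <;> linarith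

theorem rel_Ac (hL : S_LIN) (a b : ℝ) : Rel a b Ac cc cc := by
  apply hL.1
  have h1 := Real.log_two_gt_d9
  have h2 := Real.log_two_lt_d9
  have h0 : 0 < Real.log 2 := by linarith
  have h3 : cc * Real.log 2 = 1 := by
    rw [cc]
    field_simp
  have h4 : 0 < cc := by
    rw [cc]
    positivity
  have h5 : cc ≤ 1549082007 / 2 ^ 30 := by
    rw [cc, div_le_iff₀ h0]
    have := mul_lt_mul_of_pos_left h1 (by norm_num : (0 : ℝ) < 1549082007 / 2 ^ 30)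
    refine le_trans ?_ this.le
    norm_num
  have h6 : 1549082003 / 2 ^ 30 ≤ cc := by
    rw [cc, le_div_iff₀ h0]
    have := mul_lt_mul_of_pos_left h2 (by norm_num : (0 : ℝ) < 1549082003 / 2 ^ 30)
    refine le_trans this.le ?_
    norm_num
  rw [abs_le]
  constructor <;> push_cast <;> linarith

theorem rel_Ak (hL : S_LIN) (a b : ℝ) : Rel a b Ak (33 / 5) (33 / 5) := by
  apply hL.1
  rw [abs_le]
  constructor <;> norm_num

/-- `y ≤ 2^m - 1` and `0 ≤ y ≤ 1` give `y ≤ m` -/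
theorem y_le_m {m y : ℝ} (hy0 : 0 ≤ y) (hy1 : y ≤ 1) (hy : y ≤ (2 : ℝ) ^ m - 1) : y ≤ m := by
  by_contra hlt
  rw [not_le] at hlt
  have h1 : (2 : ℝ) ^ m < (2 : ℝ) ^ y := Real.rpow_lt_rpow_of_exponent_lt (by norm_num) hlt
  have h2 : (2 : ℝ) ^ y ≤ 1 + y := by
    have h3 : (2 : ℝ) = 1 + 1 := by norm_num
    rw [h3]
    have := rpow_one_add_le_one_add_mul_self (s := 1) (by norm_num) hy0 hy1
    linarith
  linarith

/-- `μ = 1/(m+1)` satisfies the hypotheses of the driver -/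
theorem mu_hyp {m y : ℝ} (hm : 0 < m) (hy0 : 0 ≤ y) (hy1 : y ≤ 1) (hy : y ≤ (2 : ℝ) ^ m - 1) :
    0 ≤ 1 / (m + 1) ∧ 1 / (m + 1) * 4096 ≤ ((4096 : ℕ) : ℝ) ∧ 1 / (m + 1) * (1 + y) ≤ 1 := by
  have h1 := y_le_m hy0 hy1 hy
  refine ⟨by positivity, ?_, ?_⟩
  · have : 1 / (m + 1) ≤ 1 := by
      rw [div_le_one (by linarith)]
      linarith
    push_cast
    linarith
  · rw [one_div, inv_mul_le_iff₀ (by linarith)]
    linarith

theorem t_NEG (hL : S_LIN) (hM : S_MUL) (hD : S_DRVYp)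
    (hP : S_PARnegY) (hA : S_ANEG) : S_NEG := by
  intro m y hm hy0 hy66 hy
  have hy1 : y < 1 := by linarith
  obtain ⟨m1, m2, m3⟩ := mu_hyp hm hy0.le hy1.le hy
  have he := endNEG00
  obtain ⟨R1, R2, a, b, μc, Yc, X1, X2, X3, X4, hd, r1, r2, r3, r4, hF⟩ :=
    hD FNEG 4096 0 dataNEG00 (by norm_num) chunkNEG00 (by rw [he]; norm_num)
      (1 / (m + 1)) y m1 m2 m3 (by simpa using hy0.le)
      (by rw [he]; push_cast; linarith) (by rw [he]; norm_num)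
  apply hA m y hm hy0 hy1
  have hr := hP R1 R2 a b hd X1 X2 X3 X4 Ac Al2 Ak _ _ _ _ _ _ _ _ _ _ _ _ _ _ r1 r2 r3 r4
    (rel_Ac hL a b) (rel_Al2 hL a b) (rel_Ak hL a b)
  exact hM.2 R1 R2 a b hd _ _ _ hr hF

end Pool.Agent.H87.TL
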